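import Pool.Agent.Helper66.SC.All

open Pool.Agent.Helper66.SC

/-- There is a countable transitive model `M` of ZFC such that, for either convention on the
triples of the stability predicate (`s = false`: `α = β` allowed, `s = true`: `α < β`), the
stable core of `M` is a model of ZFC and strictly contains its own stable core. -/
theorem Pool.Agent.Results.MP_6d6f9c_lc.StableCoreOfStableCore.result :
    ∃ M : Set ZFSet.{0}, M.Countable ∧ IsZFC M ∧ ∀ s : Bool,
      IsZFC (SCore s M) ∧ SCore s (SCore s M) ⊂ SCore s M :=
  goal2
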